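import Pool.Agent.H748R3.HUR.Stmts

set_option autoImplicit false

/-! Task HUR-Level: construction of a new level by compactness. -/

namespace Pool.Agent.H449R3.HUR

open Pool.Agent.H748R3.HUR Filter

theorem exists_sub_of_iInter {X : Type} [TopologicalSpace X] [CompactSpace X] (C : ℕ → Set X)
    (hC : ∀ n, IsClosed (C n)) (hanti : Antitone C) (O : Set X) (hO : IsOpen O)
    (h : (⋂ n, C n) ⊆ O) : ∃ n, C n ⊆ O := by
  by_contra hcon
  push Not at hcon
  have hne : (⋂ n, (C n ∩ Oᶜ)).Nonempty := by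
    apply IsCompact.nonempty_iInter_of_sequence_nonempty_isCompact_isClosed
    · intro i x hx
      exact ⟨hanti (Nat.le_succ i) hx.1, hx.2⟩
    · intro i
      obtain ⟨x, hx, hx'⟩ := Set.not_subset.1 (hcon i)
      exact ⟨x, hx, hx'⟩
    · exact ((hC 0).inter hO.isClosed_compl).isCompact
    · intro i
      exact (hC i).inter hO.isClosed_compl
  obtain ⟨x, hx⟩ := hne
  rw [Set.mem_iInter] at hx
  exact (hx 0).2 (h (Set.mem_iInter.2 fun n => (hx n).1))

theorem exists_cover {X : Type} [TopologicalSpace X] [CompactSpace X] (Z : Set X)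
    (hZ : IsClosed Z) (U : ℕ → Set X) (hU : ∀ n, IsOpen (U n)) (hmono : Monotone U)
    (h : ∀ x ∈ Z, ∃ j, x ∈ U j) : ∃ j, Z ⊆ U j := by
  refine hZ.isCompact.elim_directed_cover U hU (fun x hx => ?_) hmono.directed_le
  obtain ⟨j, hj⟩ := h x hx
  exact Set.mem_iUnion.2 ⟨j, hj⟩

theorem taskLevel : TaskLevel := by
  intro ι _ ρ a D U hfin hD hU hmono hcov
  -- the function g
  have hg : ∀ k, ∃ G, ∀ b < a, ρ b a ≤ k → ∀ n ≤ k, (D b).M n ≤ G := by
    intro k
    refine ⟨(hfin k).toFinset.sup (fun b => (Finset.range (k + 1)).sup (D b).M), ?_⟩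
    intro b hb hρ n hn
    have h1 : (D b).M n ≤ (Finset.range (k + 1)).sup (D b).M :=
      Finset.le_sup (f := (D b).M) (Finset.mem_range.2 (Nat.lt_succ_of_le hn))
    have h2 : (Finset.range (k + 1)).sup (D b).M ≤
        (hfin k).toFinset.sup (fun b => (Finset.range (k + 1)).sup (D b).M) :=
      Finset.le_sup (f := fun b => (Finset.range (k + 1)).sup (D b).M)
        ((hfin k).mem_toFinset.2 ⟨hb, hρ⟩)
    exact h1.trans h2
  choose g hg using hg
  -- closed conditions
  have hCc : ∀ n, IsClosed {x : K | ∀ b < a, ∀ m, max n (ρ b a) < m → x ∈ (D b).V m} := by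
    intro n
    have : {x : K | ∀ b < a, ∀ m, max n (ρ b a) < m → x ∈ (D b).V m} =
        ⋂ b, ⋂ (_ : b < a), ⋂ m, ⋂ (_ : max n (ρ b a) < m), (D b).V m := by
      ext x
      simp only [Set.mem_setOf_eq, Set.mem_iInter]
    rw [this]
    refine isClosed_iInter fun b => isClosed_iInter fun hb => isClosed_iInter fun m =>
      isClosed_iInter fun _ => (hD b hb).1 m
  have hpt : ∀ k h : ℕ, IsClosed {x : K | x (k, h) = 1} := fun k h =>
    isClosed_eq (continuous_apply (k, h)) continuous_const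
  have hW : ∀ l M, IsClosed {x : K | ∀ k h, l ≤ k → k < M → g k ≤ h → h < M → x (k, h) = 1} := by
    intro l M
    have : {x : K | ∀ k h, l ≤ k → k < M → g k ≤ h → h < M → x (k, h) = 1} =
        ⋂ k, ⋂ h, ⋂ (_ : l ≤ k), ⋂ (_ : k < M), ⋂ (_ : g k ≤ h), ⋂ (_ : h < M),
          {x : K | x (k, h) = 1} := by
      ext x
      simp only [Set.mem_setOf_eq, Set.mem_iInter]
    rw [this]
    exact isClosed_iInter fun k => isClosed_iInter fun h => isClosed_iInter fun _ =>
      isClosed_iInter fun _ => isClosed_iInter fun _ => isClosed_iInter fun _ => hpt k h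
  have hkey : ∀ n l, ∃ M j j', l < M ∧ ∀ x : K,
      (∀ k h, l ≤ k → k < M → g k ≤ h → h < M → x (k, h) = 1) →
      (∀ b < a, ∀ m, max n (ρ b a) < m → x ∈ (D b).V m) → x ∈ U n j ∧ x ∈ U (n + 1) j' := by
    intro n l
    set C : ℕ → Set K := fun M =>
      {x : K | ∀ k h, l ≤ k → k < M → g k ≤ h → h < M → x (k, h) = 1} ∩
      {x : K | ∀ b < a, ∀ m, max n (ρ b a) < m → x ∈ (D b).V m} with hCdef
    have hCcl : ∀ M, IsClosed (C M) := fun M => (hW l M).inter (hCc n)
    have hCanti : Antitone C := by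
      intro M M' hMM x hx
      refine ⟨fun k h h1 h2 h3 h4 => hx.1 k h h1 (h2.trans_le hMM) h3 (h4.trans_le hMM), hx.2⟩
    have hZ : ∀ x ∈ (⋂ M, C M), ∀ n', ∃ j, x ∈ U n' j := by
      intro x hx
      rw [Set.mem_iInter] at hx
      refine hcov x ⟨l, fun k hk => ⟨g k, fun h hh => ?_⟩⟩ ?_
      · exact (hx (max k h + 1)).1 k h hk (Nat.lt_succ_of_le (le_max_left _ _)) hh
          (Nat.lt_succ_of_le (le_max_right _ _))
      · intro b hb
        filter_upwards [eventually_gt_atTop (max n (ρ b a))] with m hm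
        exact (hx 0).2 b hb m hm
    have hZcl : IsClosed (⋂ M, C M) := isClosed_iInter hCcl
    obtain ⟨j, hj⟩ := exists_cover (⋂ M, C M) hZcl (U n) (fun j => (hU n j).isOpen) (hmono n)
      (fun x hx => hZ x hx n)
    obtain ⟨j', hj'⟩ := exists_cover (⋂ M, C M) hZcl (U (n + 1)) (fun j => (hU (n + 1) j).isOpen)
      (hmono (n + 1)) (fun x hx => hZ x hx (n + 1))
    obtain ⟨M, hM⟩ := exists_sub_of_iInter C hCcl hCanti (U n j ∩ U (n + 1) j')
      ((hU n j).isOpen.inter (hU (n + 1) j').isOpen) (fun x hx => ⟨hj hx, hj' hx⟩)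
    refine ⟨max M (l + 1), j, j', (Nat.lt_succ_self l).trans_le (le_max_right _ _), ?_⟩
    intro x hx1 hx2
    exact hM (hCanti (le_max_left M (l + 1)) ⟨hx1, hx2⟩)
  choose Mf jf jf' hlt hsub using hkey
  let l : ℕ → ℕ := fun n => Nat.rec 0 (fun n ih => Mf n ih) n
  have hlsucc : ∀ n, l (n + 1) = Mf n (l n) := fun n => rfl
  have hnl : ∀ n, n ≤ l n := by
    intro n
    induction n with
    | zero => exact Nat.zero_le _
    | succ n ih =>
      rw [hlsucc]
      exact Nat.succ_le_of_lt (ih.trans_lt (hlt n (l n)))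
  let f : ℕ → ℕ := fun n => max (jf n (l n)) (jf' (n - 1) (l (n - 1)))
  refine ⟨⟨fun n => U n (f n), l, fun n => Mf n (l n), g⟩, ?_, f, fun n => rfl⟩
  refine ⟨fun n => (hU n _).isClosed, hnl, fun n => hlt n (l n), fun n => le_of_eq (hlsucc n).symm,
    ?_, ?_⟩
  · intro b hb n k h1 _ h3
    exact hg k b hb h3 n (((hD b hb).2.1 n).trans h1)
  · intro n x hx1 hx2
    have h := hsub n (l n) x (fun k h h1 h2 h3 h4 => hx1 (k, h) ⟨h1, h2, h3, h4⟩) hx2
    refine ⟨hmono n (le_max_left _ _) h.1, ?_⟩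
    have : U (n + 1) (jf' n (l n)) ≤ U (n + 1) (f (n + 1)) := hmono (n + 1) (le_max_right _ _)
    exact this h.2

end Pool.Agent.H449R3.HUR
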